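import Pool.Agent.Helper29.MX.Bas
import Pool.Agent.Helper89.RAD.Sd
import Pool.Agent.Helper85.FRG.Vis

/-! NUMBERS OF A WINDOW: exact volumes of the prefixes (K-labels of the pair `(s, R)`) give the entropies of the prefixes
over K-labels and carriers (structure theorem in the dimensions `< M`), hence the frames. -/

set_option autoImplicit false

namespace Pool.Agent.Helper85.NUM

open Finset Filter Topology Matrix Pool.Agent.Helper69.RK Pool.Agent.Helper31.EC Pool.Agent.Helper31.EC.Sp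
open Pool.Agent.Helper40.EL Pool.Agent.Helper89.LX Pool.Agent.Helper3.LF Pool.Agent.Helper84.MT Pool.Agent.Helper36.AM
open Pool.Agent.Helper29.MX Pool.Agent.Helper85.FRM Pool.Agent.Helper85.FRG
open Pool.Agent.Helper52.GF (scw scw_cnd)
open Pool.Agent.Helper89.RAK (KC Lit)
open Pool.Agent.Helper89.RAD (DMD dp stD cnA_dp DMD_dp)
open Pool.Agent.Helper89.RAT
open Pool.Agent.Helper87.NSL (KnS cndR)
open Pool.Agent.Helper7.RD (volC volCO volC_eq volC_le_of volCO_le)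
open Pool.Agent.Helper18.PRM (vcrd scrd)
open Pool.Agent.Helper48.ROK (LowK NumC VolC pvv pre_eq)
open Pool.Agent.Helper84.KR (prt optK_prt prt_lb)
open Pool.Agent.Helper14.MC (cnt_vol)

noncomputable section

variable {S T : Sp} {M D : ℕ} {E : ℕ → ℕ} {ι : Type}

/-- the numbers of the prefixes: lower bounds on all events of all extensions (all degrees), upper bounds in degree `D` -/
structure Nmb (s : MSys S M E ι) (R : Rsl S) (D : ℕ) (c : ℝ) (w : Fin M → ℝ) : Prop where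
  lo : ∀ (T : Sp) (p : Pj T S) (A : ∀ k, (T.F k).Ω → Prop) (hA : 0 < ul (T.pr A)) (j : Fin M),
    (∑ i : Fin M, if i < j then 1 - w i * c else 0) ≤ volP (s.im p A hA) R c j.isLt.le
  lof : ∀ (T : Sp) (p : Pj T S) (A : ∀ k, (T.F k).Ω → Prop) (hA : 0 < ul (T.pr A)),
    (∑ i : Fin M, (1 - w i * c)) ≤ volKO (s.im p A hA) R c
  los : ∀ j : Fin M, (∑ i : Fin M, if i < j then 1 - w i * c else 0) ≤ volP s R c j.isLt.le
  hi : ∀ j : Fin M, volC (KZ R) (cndR s R c) (pfx s.Q j.isLt.le) D ≤ ∑ i : Fin M, if i < j then 1 - w i * c else 0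
  hif : volK s R D c ≤ ∑ i : Fin M, (1 - w i * c)

/-- the entropy of a prefix -/
theorem H_pre {Q : S.VV M} {N : ℕ} (hN : N ≤ M) (l : Lab S) :
    H (up1 l ((pfx Q hN).dg 1)) = ul (fun k => h ((l k).p.map (pre Q N k)) (l k).v / (S.F k).n) := by
  have e1 : (pfx Q hN).dg 1 = cl ((pfx Q hN).bdd 1).toInf := io_eq ((pfx Q hN).bdd 1)
  rw [e1, H_up1_cl]
  congr 1
  funext k
  rw [pre_eq hN (P := pfx Q hN) (fun k ω a => rfl) k]
  rfl

/-- the conditions of the prefix -/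
theorem cndR_crd {m : ℕ} (σ : Fin m → Fin M) (s : MSys S M E ι) (R : Rsl S) (c : ℝ) :
    cndR (scrd σ s) R c = cndR s R c := funext fun i => by cases i <;> rfl

variable [Finite ι] {g : ℕ}

/-- ST OF THE PREFIX: the volume of the prefix is at most its entropy over every K-label of the window -/
theorem st_pre {s : MSys S M (lin g) ι} {R : Rsl S} {j : ℕ} (hj : j ≤ M) (hST : ∀ r, STm D j (lin g) (Fin r))
    (hlit : Lit R s.Q) (hD : 1 ≤ D) {c : ℝ} (h0 : 0 ≤ c) (h1 : c < 1) {l : Lab S} (hl : KLb s R c l) :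
    volP s R c hj ≤ H (up1 l ((pfx s.Q hj).dg 1)) := by
  obtain ⟨x, hx⟩ := (gaq (pfx s.Q hj) D).exists_optfK (KZ R) (cndR s R c)
  have h2 : volP s R c hj ≤ vol (pfx s.Q hj) D x := by
    rw [← volC_eq hx]
    exact volCO_le D
  refine h2.trans ?_
  have hlit' : Lit R (scrd (Fin.castLE hj) s).Q := by
    intro k ω ω' r
    have h3 : s.Q.v k ω = s.Q.v k ω' := hlit k r
    show (fun i => s.Q.v k ω (Fin.castLE hj i)) = fun i => s.Q.v k ω' (Fin.castLE hj i)
    rw [h3]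
  have hl' : DMD (scrd (Fin.castLE hj) s) (dp R) R c l := DMD_dp.mpr ⟨fun i => hl.1 (some i), hl.2⟩
  refine stD (s := scrd (Fin.castLE hj) s) hST hlit' hD h0 h1 hl' (x := x) ?_
  rw [cnA_dp, cndR_crd]
  exact hx

omit [Finite ι] in
/-- the part of an optimal form: the entropy of the prefix over a carrier is at most the volume of the prefix -/
theorem car_pre {s : MSys S M (lin g) ι} {R : Rsl S} {j : ℕ} (hj : j ≤ M) (hD : 1 ≤ D) {c : ℝ} {l : Lab S}
    (hl : Car s R (fun k => fc (R k)) c l) :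
    H (up1 l ((pfx s.Q hj).dg 1)) ≤ volC (KZ R) (cndR s R c) (pfx s.Q hj) D := by
  obtain ⟨x, hx, ho⟩ := hl D
  have hl : (fun k => (x k).l) = l := funext hx
  subst hl
  rw [scw_cndR] at ho
  have h1 := optK_prt (P := pfx s.Q hj) (σ := Fin.castLE hj) (hσ := Fin.castLE_injective hj) (fun k ω a => rfl) ho
  rw [volC_eq h1]
  exact cnt_vol (pfx s.Q hj) hD _ h1.1.1

section
variable {s : MSys S M (lin g) ι} {R : Rsl S} (hST : ∀ j, j < M → ∀ r, STm D j (lin g) (Fin r)) (hlit : Lit R s.Q)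
  (hD : 1 ≤ D) {c : ℝ} (h0 : 0 ≤ c) (h1 : c < 1) {w : Fin M → ℝ} (hN : Nmb s R D c w)

include hST hlit hD h0 h1 hN

/-- LOWER NUMBERS on events -/
theorem low_k : LowK s R c w := by
  intro T p A hA l hl hC j
  have hlit' : Lit (S := Sp.im p A) R (s.im p A hA).Q := hlit
  have hK : KLb (s.im p A hA) R c l := by
    have e1 := scw_cndR (s.im p A hA) (S := Sp.im p A) R c
    exact ⟨(congrArg (fun X => l.DMf X) e1).mp hl, hC⟩
  have h2 := st_pre (s := s.im p A hA) j.isLt.le (hST j.val j.isLt) hlit' hD h0 h1 hK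
  have h3 := (hN.lo T p A hA j).trans h2
  rwa [H_pre] at h3

/-- NUMBERS over the carriers -/
theorem num_car (j : Fin M) {l : Lab S} (hl : Car s R (fun k => fc (R k)) c l) :
    Tendsto (fun k => h ((l k).p.map (pre s.Q j.val k)) (l k).v / (S.F k).n) UF
      (𝓝 (∑ i : Fin M, if i < j then 1 - w i * c else 0)) := by
  have hK : KLb s R c l := hl.dmR
  have h2 := (hN.los j).trans (st_pre j.isLt.le (hST j.val j.isLt) hlit hD h0 h1 hK)
  have h3 := (car_pre j.isLt.le hD hl).trans (hN.hi j)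
  have h4 := le_antisymm h3 h2
  rw [H_pre] at h4
  rw [← h4]
  exact ul_tendsto (Pool.Agent.Helper48.ROK.pre_UB s.Q j.isLt.le l)

omit hST hlit hD h0 h1 [Finite ι] in
/-- VOLUMES -/
theorem vol_c : VolC s R D c w := by
  refine ⟨fun j hj => ?_, ?_, fun T p A hA y hy => ?_⟩
  · obtain ⟨x, hx⟩ := (gaq (pfx s.Q j.isLt) D).exists_optfK (KZ R) (cndR s R c)
    refine ⟨pfx s.Q j.isLt, x, fun k ω a => rfl, ?_, ?_⟩
    · rw [scw_cndR]
      exact hx.1
    · have h2 := hN.hi ⟨j.val + 1, hj⟩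
      have h3 : volC (KZ R) (cndR s R c) (pfx s.Q j.isLt) D ≤
          ∑ i : Fin M, if i < ⟨j.val + 1, hj⟩ then 1 - w i * c else 0 := h2
      rw [volC_eq hx] at h3
      refine h3.trans (le_of_eq (Finset.sum_congr rfl fun i _ => ?_))
      have h4 : (i < (⟨j.val + 1, hj⟩ : Fin M)) ↔ i ≤ j := by
        rw [Fin.lt_def, Fin.le_def]
        exact Nat.lt_succ_iff
      simp only [h4]
  · obtain ⟨x, hx⟩ := (gaq s.Q D).exists_optfK (KZ R) (cndR s R c)
    refine ⟨x, ?_, ?_⟩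
    · rw [scw_cndR]
      exact hx.1
    · have h2 := hN.hif
      rw [volK_of_opt hx] at h2
      exact h2
  · have e1 := scw_cndR (s.im p A hA) (S := Sp.im p A) R c
    have h2 : KAd (s.im p A hA) R D c y :=
      (congrArg (fun X => (gaq (s.im p A hA).Q D).AdfK (KC (S := Sp.im p A) R) X y) e1).mp hy
    exact (hN.lof T p A hA).trans (volKO_le_of h2)

end

/-- **BOXES OF THE FINAL CLASS**: numbers at all windows `0 < c' ≤ c`, optimal forms visible from `B` -/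
theorem box_of_num {s : MSys S M (lin g) ι} {B R : Rsl S}
    (hB : ∃ K : ℕ → ℝ, S.Sub K ∧ ∀ᶠ k in UF, ∀ ω ω', (S.F k).μ ω ≠ 0 → (S.F k).μ ω' ≠ 0 → (S.F k).Z ω ω' → B k ω ω' →
      ∀ i, |s.Q.v k ω i - s.Q.v k ω' i| ≤ K k * S.dl 1 k)
    (hST : ∀ j, j < M → ∀ r, STm D j (lin g) (Fin r)) (hlit : Lit R s.Q) (hD : 1 ≤ D) {w : Fin M → ℝ}
    (hw : ∀ i, 1 ≤ w i) {c : ℝ} (hc : 0 < c) (hc1 : c < 1) (hwc : ∀ i, w i * c < 1)
    (hN : ∀ c' : ℝ, 0 < c' → c' ≤ c → Nmb s R D c' w) (hvis : ∀ c' : ℝ, 0 < c' → c' ≤ c → VisB s B R c') :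
    ∃ (Z : Rsl S) (_ : Frm s.Q (Lab.ofZ Z) fun j => w j * c), (∀ᶠ k in UF, R k ⊓ (S.F k).Z ≤ Z k) ∧
      (Lab.ofZ Z).DMf (scw s (fun k => fc (B k)) c) ∧ Car s R (fun k => fc (R k)) c (Lab.ofZ Z) :=
  vis_frames s hB hlit hD hw hc hwc
    (fun c' h0 h1 j _ hl => num_car hST hlit hD h0.le (h1.trans_lt hc1) (hN c' h0 h1) j hl)
    (fun c' h0 h1 => low_k hST hlit hD h0.le (h1.trans_lt hc1) (hN c' h0 h1))
    (fun c' h0 h1 => vol_c (hN c' h0 h1)) hvis

/-- **THE FIELD `box` OF `YC`** (all windows `0 < c`, `w_last c < 1`) -/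
theorem yc_box {M : ℕ} {s : MSys S (M + 1) (lin g) ι} (hST : ∀ j, j < M + 1 → ∀ r, STm D j (lin g) (Fin r)) (hD : 1 ≤ D)
    {w : Fin (M + 1) → ℝ} (hw : ∀ i, 1 ≤ w i) {c : ℝ} (hc : 0 < c) (hwc : ∀ i, w i * c < 1)
    (hN : ∀ c' : ℝ, 0 < c' → c' ≤ c → Nmb s (rbot S) D c' w)
    (hvis : ∀ c' : ℝ, 0 < c' → c' ≤ c → VisB s (vis s.Q) (rbot S) c') :
    ∃ (l : Lab S) (_ : Frm s.Q l fun j => w j * c), s.DMc c l := by
  have hc1 : c < 1 := by
    have h1 := hw 0
    have h2 := hwc 0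
    nlinarith
  obtain ⟨Z, f, -, h2, -⟩ := box_of_num (B := vis s.Q) (cell_bd s.Q) hST (fun k => bot_le) hD hw hc hc1 hwc hN hvis
  have e1 : (scw s (fun k => fc (vis s.Q k)) c) = s.cnd c := scw_cnd s c
  rw [e1] at h2
  exact ⟨_, f, h2⟩

/-- **THE FIELD `typ` OF `YC`** -/
theorem yc_typ {M : ℕ} {E : ℕ → ℕ} {s : MSys S (M + 1) E ι} {w : Fin (M + 1) → ℝ} {c : ℝ}
    (h : (∑ i : Fin (M + 1), (1 - w i * c)) ≤ volKO s (rbot S) c) (D : ℕ) (x : ∀ k, FD (S.F k) (Mon (M + 1) D))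
    (hx : (gaq s.Q D).Adf (fun i => (s.lf i).win c) x) : (M : ℝ) + 1 - ∑ j, w j * c ≤ vol s.Q D x := by
  have h1 := h.trans (volKO_le_of (kad_bot.mpr hx))
  rw [Finset.sum_sub_distrib, Finset.sum_const, Finset.card_univ, Fintype.card_fin, nsmul_eq_mul, mul_one] at h1
  push_cast at h1
  exact h1

end

end Pool.Agent.Helper85.NUM
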